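import Pool.Agent.TH886.PrimeScales

/-!
# Around almost all primes of every interval `(X, X + Y]`, `X ^ θ ≤ Y ≤ X`, the windows of length `(log p) ^ a`
# are regular for all exponents `a ≥ 1` outside boundedly many intervals of length `2 / log log p`

`R a x` is `R_h(x) = (log x / h(x)) (π(x + h(x)) - π(x))` for `h(x) = (log x) ^ a`.

Let `0 < θ ≤ 1` and `η > 0`. There are constants `0 < c ≤ C` such that for every `δ > 0` there is a `K` with the
following property. For all large `X` and ALL `X ^ θ ≤ Y ≤ X`, all but at most `η Y / log X` of the primes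
`p` in `(X, X + Y]` satisfy: for all real exponents `a ≥ 1` with `2 (log p) ^ a ≤ Y`, outside the union
of at most `K` intervals `|a - e| ≤ 1 / log log p`,

* `c ≤ R a p ≤ C`;
* on `[p - (log p) ^ a, p + (log p) ^ a]` the primes are uniformly distributed with the density
  `R a p / log p`: for all `u ≤ v` in this interval the number of primes in `(u, v]` is
  `R a p (v - u) / log p` up to an error of at most `δ (log p) ^ a / log p`.
-/

set_option autoImplicit false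

namespace Pool.Agent.Results.MP_b09185_nt.FewBadExponents

open Finset Filter Topology

/-- `R_h(x) = (log x / h(x)) (π(x + h(x)) - π(x))` for `h(x) = (log x) ^ a` -/
noncomputable def R (a x : ℝ) : ℝ :=
  Real.log x / Real.log x ^ a *
    ((Nat.primeCounting ⌊x + Real.log x ^ a⌋₊ : ℝ) - Nat.primeCounting ⌊x⌋₊)

/-- the exponent `a` is regular at `p` -/
def Regular (c C δ a : ℝ) (p : ℕ) : Prop :=
  c ≤ R a p ∧ R a p ≤ C ∧ ∀ u v : ℕ, (p : ℝ) - Real.log p ^ a ≤ u → u ≤ v →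
    (v : ℝ) ≤ p + Real.log p ^ a →
    |(((Ioc u v).filter Nat.Prime).card : ℝ) - R a p * ((v : ℝ) - u) / Real.log p| ≤
      δ * Real.log p ^ a / Real.log p

/-- all exponents `a ≥ 1` with `2 (log p) ^ a ≤ Y` are regular at `p`, except for at most `K` intervals
of length `2 / log log p` -/
def RegularOutside (c C δ : ℝ) (K Y p : ℕ) : Prop :=
  ∃ E : Finset ℝ, E.card ≤ K ∧ ∀ a : ℝ, 1 ≤ a → 2 * Real.log p ^ a ≤ Y →
    (∀ e ∈ E, 1 / Real.log (Real.log p) < |a - e|) → Regular c C δ a p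

lemma pi_eq (n : ℕ) : Nat.primeCounting n = ((range (n + 1)).filter Nat.Prime).card := by
  rw [Nat.primeCounting, Nat.primeCounting', Nat.count_eq_card_filter_range]

lemma card_Ioc {a b : ℕ} (h : a ≤ b) : (((Ioc a b).filter Nat.Prime).card : ℝ) =
    (Nat.primeCounting b : ℝ) - Nat.primeCounting a := by
  have h1 : (range (b + 1)).filter Nat.Prime =
      (range (a + 1)).filter Nat.Prime ∪ (Ioc a b).filter Nat.Prime := by
    rw [← filter_union]
    congr 1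
    ext x
    simp only [mem_range, mem_union, mem_Ioc]
    omega
  have h2 : Disjoint ((range (a + 1)).filter Nat.Prime) ((Ioc a b).filter Nat.Prime) := by
    rw [disjoint_left]
    intro x hx hy
    rw [mem_filter, mem_range] at hx
    rw [mem_filter, mem_Ioc] at hy
    omega
  rw [pi_eq, pi_eq, h1, card_union_of_disjoint h2]
  push_cast
  ring

lemma R_eq (a : ℝ) (n : ℕ) : R a n = Real.log n / Real.log n ^ a *
    (((Ioc n (n + ⌊Real.log (n : ℝ) ^ a⌋₊)).filter Nat.Prime).card : ℝ) := by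
  have hl : 0 ≤ Real.log (n : ℝ) := Real.log_natCast_nonneg n
  have hH : 0 ≤ Real.log (n : ℝ) ^ a := Real.rpow_nonneg hl a
  unfold R
  have h1 : ⌊(n : ℝ) + Real.log (n : ℝ) ^ a⌋₊ = n + ⌊Real.log (n : ℝ) ^ a⌋₊ := by
    rw [add_comm, Nat.floor_add_natCast hH, add_comm]
  rw [card_Ioc (Nat.le_add_right _ _), h1, Nat.floor_natCast]

/-- one exponent, from a good dyadic scale -/
lemma one (c₁ c₂ δ δ' a : ℝ) (p j : ℕ) (hc₁ : 0 < c₁) (hδ' : 0 < δ') (h8 : 8 * δ' ≤ δ)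
    (h6 : 6 * δ' ≤ c₁) (hL : 1 ≤ Real.log (p : ℝ)) (hLc : c₂ ≤ δ' * Real.log p) (ha : 1 ≤ a)
    (hj1 : Real.log (p : ℝ) ^ a ≤ 2 ^ j) (hj2 : (2 : ℝ) ^ j ≤ 2 * Real.log p ^ a)
    (hg : ∃ lam : ℝ, c₁ ≤ lam ∧ lam ≤ c₂ ∧ ∀ u v : ℕ, p ≤ u + 2 ^ j → u ≤ v → v ≤ p + 2 ^ j →
      |(((Finset.Ioc u v).filter Nat.Prime).card : ℝ) - lam * ((v : ℝ) - u) / Real.log p| ≤
        δ' * ((2 ^ j : ℕ) : ℝ) / Real.log p) : Regular (c₁ / 2) (c₂ + c₁) δ a p := by
  obtain ⟨lam, hl1, hl2, hlam⟩ := hg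
  obtain ⟨L, hLdef⟩ : ∃ L : ℝ, L = Real.log (p : ℝ) := ⟨_, rfl⟩
  obtain ⟨H, hH⟩ : ∃ H : ℝ, H = Real.log (p : ℝ) ^ a := ⟨_, rfl⟩
  have hLH : L ≤ H := by
    rw [hLdef, hH]
    calc Real.log (p : ℝ) = Real.log (p : ℝ) ^ (1 : ℝ) := (Real.rpow_one _).symm
      _ ≤ _ := Real.rpow_le_rpow_of_exponent_le hL ha
  rw [← hH] at hj1 hj2
  rw [← hLdef] at hL hLc hlam
  have hL0 : 0 < L := by linarith
  have hH0 : 0 < H := by linarith
  have hc₂ : 0 < c₂ := by linarith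
  push_cast at hlam
  -- the density
  have hf1 : (⌊H⌋₊ : ℝ) ≤ H := Nat.floor_le hH0.le
  have hf2 : H - 1 < (⌊H⌋₊ : ℝ) := by
    have := Nat.lt_floor_add_one H
    linarith
  have hflj : ⌊H⌋₊ ≤ 2 ^ j := by
    have : (⌊H⌋₊ : ℝ) ≤ ((2 ^ j : ℕ) : ℝ) := by push_cast; linarith
    exact_mod_cast this
  have h1 := hlam p (p + ⌊H⌋₊) (by omega) (by omega) (by omega)
  push_cast at h1
  have hR : |R a p - lam| ≤ 3 * δ' := by
    rw [R_eq, ← hH, ← hLdef]
    obtain ⟨M, hM⟩ : ∃ M : ℝ, M = (((Ioc p (p + ⌊H⌋₊)).filter Nat.Prime).card : ℝ) := ⟨_, rfl⟩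
    rw [← hM] at h1 ⊢
    have e : L / H * M - lam = L / H * (M - lam * ((p : ℝ) + ⌊H⌋₊ - p) / L) -
        lam * (H - ⌊H⌋₊) / H := by
      field_simp
      ring
    rw [e]
    have k1 : |L / H * (M - lam * ((p : ℝ) + ⌊H⌋₊ - p) / L)| ≤ 2 * δ' := by
      rw [abs_mul, abs_of_pos (by positivity : 0 < L / H)]
      calc _ ≤ L / H * (δ' * 2 ^ j / L) := mul_le_mul_of_nonneg_left h1 (by positivity)
        _ ≤ L / H * (δ' * (2 * H) / L) := by gcongr
        _ = 2 * δ' := by field_simp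
    have k2 : |lam * (H - ⌊H⌋₊) / H| ≤ δ' := by
      have h0 : 0 ≤ H - ⌊H⌋₊ := by linarith
      rw [abs_of_nonneg (by
        have : 0 < lam := by linarith
        positivity), div_le_iff₀ hH0]
      calc lam * (H - ⌊H⌋₊) ≤ c₂ * 1 := by
            apply mul_le_mul hl2 (by linarith) h0 hc₂.le
        _ ≤ δ' * L := by linarith
        _ ≤ δ' * H := by gcongr
    calc _ ≤ _ + _ := abs_sub _ _
      _ ≤ 2 * δ' + δ' := add_le_add k1 k2
      _ = 3 * δ' := by ring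
  rw [abs_le] at hR
  refine ⟨by linarith, by linarith, fun u v hu huv hv => ?_⟩
  rw [← hH] at hu hv ⊢
  rw [← hLdef]
  have hu' : p ≤ u + 2 ^ j := by
    have : (p : ℝ) ≤ ((u + 2 ^ j : ℕ) : ℝ) := by push_cast; linarith
    exact_mod_cast this
  have hv' : v ≤ p + 2 ^ j := by
    have : (v : ℝ) ≤ ((p + 2 ^ j : ℕ) : ℝ) := by push_cast; linarith
    exact_mod_cast this
  have h2 := hlam u v hu' huv hv'
  have huvr : (u : ℝ) ≤ v := by exact_mod_cast huv
  obtain ⟨M, hM⟩ : ∃ M : ℝ, M = (((Ioc u v).filter Nat.Prime).card : ℝ) := ⟨_, rfl⟩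
  rw [← hM] at h2 ⊢
  have e : M - R a p * ((v : ℝ) - u) / L = (M - lam * ((v : ℝ) - u) / L) +
      (lam - R a p) * ((v : ℝ) - u) / L := by ring
  rw [e]
  have k1 : |(lam - R a p) * ((v : ℝ) - u) / L| ≤ 3 * δ' * (2 * H) / L := by
    rw [abs_div, abs_of_pos hL0, abs_mul, abs_of_nonneg (by linarith : 0 ≤ (v : ℝ) - u)]
    have k3 : |lam - R a p| ≤ 3 * δ' := by
      rw [abs_le]
      constructor <;> linarith
    have k4 : (v : ℝ) - u ≤ 2 * H := by linarith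
    gcongr
  calc _ ≤ _ + _ := abs_add_le _ _
    _ ≤ δ' * 2 ^ j / L + 3 * δ' * (2 * H) / L := add_le_add h2 k1
    _ ≤ δ' * (2 * H) / L + 3 * δ' * (2 * H) / L := by gcongr
    _ = 8 * δ' * H / L := by ring
    _ ≤ δ * H / L := by gcongr

open Classical Pool.Agent.Results.MP_31d0eb_nt.FewBadScales in
theorem result (θ : ℝ) (h0 : 0 < θ) (h1 : θ ≤ 1) (η : ℝ) (hη : 0 < η) :
    ∃ c C : ℝ, 0 < c ∧ c ≤ C ∧ ∀ δ : ℝ, 0 < δ → ∃ K : ℕ,
      ∀ᶠ X : ℕ in atTop, ∀ Y : ℕ, (X : ℝ) ^ θ ≤ Y → Y ≤ X →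
        (((Ioc X (X + Y)).filter (fun p => p.Prime ∧ ¬ RegularOutside c C δ K Y p)).card : ℝ) ≤
          η * Y / Real.log X := by
  obtain ⟨c₁, c₂, hc₁, hmain⟩ := Pool.Agent.TH886.PS.main θ h0 h1 η hη
  obtain ⟨c₃, hc₃⟩ : ∃ c₃ : ℝ, c₃ = max c₂ c₁ := ⟨_, rfl⟩
  have hc31 : c₁ ≤ c₃ := by rw [hc₃]; exact le_max_right _ _
  have hc32 : c₂ ≤ c₃ := by rw [hc₃]; exact le_max_left _ _
  refine ⟨c₁ / 2, c₃ + c₁, by positivity, by linarith, fun δ hδ => ?_⟩
  obtain ⟨δ', hδ'⟩ : ∃ δ' : ℝ, δ' = min (δ / 8) (c₁ / 6) := ⟨_, rfl⟩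
  have hδ'0 : 0 < δ' := by rw [hδ']; exact lt_min (by positivity) (by positivity)
  have hδ'1 : 8 * δ' ≤ δ := by
    have := min_le_left (δ / 8) (c₁ / 6)
    rw [hδ']; linarith
  have hδ'2 : 6 * δ' ≤ c₁ := by
    have := min_le_right (δ / 8) (c₁ / 6)
    rw [hδ']; linarith
  obtain ⟨K, hK⟩ := hmain δ' hδ'0
  refine ⟨K, ?_⟩
  have hlogN : Tendsto (fun N : ℕ => Real.log (N : ℝ)) atTop atTop :=
    Real.tendsto_log_atTop.comp tendsto_natCast_atTop_atTop
  filter_upwards [hK, hlogN.eventually_ge_atTop 3, hlogN.eventually_ge_atTop (c₃ / δ'),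
    eventually_ge_atTop 1] with X hX hL3 hLc hX1
  intro Y hY1 hY2
  refine le_trans ?_ (hX Y hY1 hY2)
  refine Nat.cast_le.2 (card_le_card fun p hp => ?_)
  rw [mem_filter] at hp ⊢
  refine ⟨hp.1, hp.2.1, ?_⟩
  by_contra hcon
  push Not at hcon
  apply hp.2.2
  have hpX : X < p := (mem_Ioc.1 hp.1).1
  have hXr : (1 : ℝ) ≤ X := by exact_mod_cast hX1
  have hpr : (X : ℝ) ≤ p := by exact_mod_cast hpX.le
  have hlog : Real.log X ≤ Real.log p := Real.log_le_log (by linarith) hpr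
  have hL : 3 ≤ Real.log (p : ℝ) := by linarith
  have hll : 0 < Real.log (Real.log (p : ℝ)) := Real.log_pos (by linarith)
  unfold badScales at hcon
  obtain ⟨S, hS⟩ : ∃ S : Finset ℕ, S = ((range (Nat.log 2 Y + 1)).filter (fun j =>
    Real.log p ≤ (2 : ℝ) ^ j ∧ ¬ ConstantDensity c₁ c₂ δ' p (2 ^ j))) := ⟨_, rfl⟩
  refine ⟨S.image (fun j : ℕ => (j : ℝ) * Real.log 2 / Real.log (Real.log p)), ?_, ?_⟩
  · refine card_image_le.trans ?_
    rw [hS]
    exact hcon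
  intro a ha haY hE
  obtain ⟨H, hH⟩ : ∃ H : ℝ, H = Real.log (p : ℝ) ^ a := ⟨_, rfl⟩
  have hLH : Real.log (p : ℝ) ≤ H := by
    rw [hH]
    calc Real.log (p : ℝ) = Real.log (p : ℝ) ^ (1 : ℝ) := (Real.rpow_one _).symm
      _ ≤ _ := Real.rpow_le_rpow_of_exponent_le (by linarith) ha
  have hH0 : 0 < H := by linarith
  have hlogH : Real.log H = a * Real.log (Real.log p) := by
    rw [hH, Real.log_rpow (by linarith)]
  have hlogH0 : 0 ≤ Real.log H := Real.log_nonneg (by linarith)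
  have hlog2 : 0 < Real.log 2 := Real.log_pos (by norm_num)
  obtain ⟨j, hj⟩ : ∃ j : ℕ, j = ⌈Real.log H / Real.log 2⌉₊ := ⟨_, rfl⟩
  have hj1 : Real.log H / Real.log 2 ≤ j := by rw [hj]; exact Nat.le_ceil _
  have hj2 : (j : ℝ) < Real.log H / Real.log 2 + 1 := by
    rw [hj]; exact Nat.ceil_lt_add_one (by positivity)
  rw [div_le_iff₀ hlog2] at hj1
  have hj3 : (j : ℝ) * Real.log 2 < Real.log H + Real.log 2 := by
    have := mul_lt_mul_of_pos_right hj2 hlog2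
    rw [add_mul, div_mul_cancel₀ _ hlog2.ne', one_mul] at this
    exact this
  have hp2 : Real.log ((2 : ℝ) ^ j) = j * Real.log 2 := Real.log_pow _ _
  have hHj : H ≤ 2 ^ j := by
    rw [← Real.log_le_log_iff hH0 (by positivity), hp2]
    exact hj1
  have hjH : (2 : ℝ) ^ j ≤ 2 * H := by
    rw [← Real.log_le_log_iff (by positivity) (by positivity), hp2,
      Real.log_mul (by norm_num) hH0.ne']
    linarith
  rw [← hH] at haY
  have hjY : 2 ^ j ≤ Y := by
    have : ((2 ^ j : ℕ) : ℝ) ≤ Y := by push_cast; linarith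
    exact_mod_cast this
  have hgood : ConstantDensity c₁ c₂ δ' p (2 ^ j) := by
    by_contra hbad
    have hjS : j ∈ S := by
      rw [hS, mem_filter, mem_range]
      refine ⟨?_, hLH.trans hHj, hbad⟩
      have hY0 : Y ≠ 0 := by
        have : 0 < 2 ^ j := by positivity
        omega
      have := (Nat.le_log_iff_pow_le (by norm_num : 1 < 2) hY0).2 hjY
      omega
    have h2 := hE _ (mem_image_of_mem _ hjS)
    have h3 : |a - (j : ℝ) * Real.log 2 / Real.log (Real.log p)| * Real.log (Real.log p) =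
        |Real.log H - j * Real.log 2| := by
      rw [hlogH, ← abs_of_pos hll, ← abs_mul, abs_of_pos hll]
      congr 1
      field_simp
    have h4 : |Real.log H - j * Real.log 2| ≤ Real.log 2 := by
      rw [abs_le]
      constructor <;> linarith
    have h5 : Real.log 2 < 1 := by
      have := Real.log_two_lt_d9
      linarith
    rw [div_lt_iff₀ hll, h3] at h2
    linarith
  obtain ⟨lam, k1, k2, k3⟩ := hgood
  have hfin := one c₁ c₃ δ δ' a p j hc₁ hδ'0 hδ'1 hδ'2 (by linarith) (by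
    rw [div_le_iff₀ hδ'0] at hLc
    have : Real.log X * δ' ≤ Real.log p * δ' := mul_le_mul_of_nonneg_right hlog hδ'0.le
    linarith) ha (by rw [← hH]; exact hHj) (by rw [← hH]; exact hjH)
    ⟨lam, k1, k2.trans hc32, k3⟩
  exact hfin

end Pool.Agent.Results.MP_b09185_nt.FewBadExponents
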