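import Pool.Agent.TH886.DensPow

/-!
# The densities `R_a(p)` of the primes in `(p, p + (log p) ^ a]` at the primes `p`

`R a x` is `R_h(x) = (log x / h(x)) (π(x + h(x)) - π(x))` for `h(x) = (log x) ^ a`.

For every `0 < ε ≤ 1` there is a number `K` with the following property. Let `[s 0, t 0]`, `[s 1, t 1]`, …
be disjoint intervals of exponents in `(3, ∞)`, in increasing order, with `s (i + 1) ≥ s i + 2`, and let `m`
be arbitrarily large. For all large `N` all but at most `K` of the `m` intervals `[s, t] = [s i, t i]` satisfy: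

* for all but at most `ε π(N)` primes `p < N` the densities `R a p`, `a ∈ [s, t]`, differ by at most `ε`, for
  all `a ∈ [s, t]` at once;
* the harmonic mean over the primes `p < N` of the densities `R a p` (truncated at `ε`) is at least
  `1 / (1 + ε)`, also if `a ∈ [s, t]` is allowed to depend on `p`;
* for every `μ ≥ ε` at most `(1 + ε) μ π(N)` primes `p < N` have `R a p ≤ μ` for some `a ∈ [s, t]`.

Consequently, for every `A` and every function `F` there is `A'` such that for all large `N` the three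
assertions hold for some interval `[s, F s]` of exponents with `A ≤ s ≤ A'`.
-/

set_option autoImplicit false

namespace Pool.Agent.Results.MP_b09185_nt.HarmonicMeanAtPrimes

open Finset Filter Topology

/-- `R_h(x) = (log x / h(x)) (π(x + h(x)) - π(x))` for `h(x) = (log x) ^ a` -/
noncomputable def R (a x : ℝ) : ℝ :=
  Real.log x / Real.log x ^ a *
    ((Nat.primeCounting ⌊x + Real.log x ^ a⌋₊ : ℝ) - Nat.primeCounting ⌊x⌋₊)

/-- the numbers `R a x`, `s ≤ a ≤ t`, differ by at most `η` -/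
def Stable (η s t x : ℝ) : Prop :=
  ∀ a b : ℝ, s ≤ a → a ≤ t → s ≤ b → b ≤ t → |R a x - R b x| ≤ η

open Classical in
/-- the three assertions about the interval `[s, t]` of exponents -/
def Good (ε : ℝ) (N : ℕ) (s t : ℝ) : Prop :=
  (((range N).filter (fun p : ℕ => p.Prime ∧ ¬ Stable ε s t p)).card : ℝ) ≤ ε * Nat.primeCounting N ∧
  (∀ a : ℕ → ℝ, (∀ p, s ≤ a p ∧ a p ≤ t) →
    ∑ p ∈ (range N).filter Nat.Prime, 1 / max (R (a p) p) ε ≤ (1 + ε) * Nat.primeCounting N) ∧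
  ∀ μ : ℝ, ε ≤ μ → (((range N).filter (fun p : ℕ => p.Prime ∧ ∃ a : ℝ, s ≤ a ∧ a ≤ t ∧
    R a p ≤ μ)).card : ℝ) ≤ (1 + ε) * μ * Nat.primeCounting N

lemma pi_eq (n : ℕ) : Nat.primeCounting n = ((range (n + 1)).filter Nat.Prime).card := by
  rw [Nat.primeCounting, Nat.primeCounting', Nat.count_eq_card_filter_range]

lemma card_Ioc {a b : ℕ} (h : a ≤ b) : (((Ioc a b).filter Nat.Prime).card : ℝ) =
    (Nat.primeCounting b : ℝ) - Nat.primeCounting a := by
  have h1 : (range (b + 1)).filter Nat.Prime =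
      (range (a + 1)).filter Nat.Prime ∪ (Ioc a b).filter Nat.Prime := by
    rw [← filter_union]
    congr 1
    ext x
    simp only [mem_range, mem_union, mem_Ioc]
    omega
  have h2 : Disjoint ((range (a + 1)).filter Nat.Prime) ((Ioc a b).filter Nat.Prime) := by
    rw [disjoint_left]
    intro x hx hy
    rw [mem_filter, mem_range] at hx
    rw [mem_filter, mem_Ioc] at hy
    omega
  rw [pi_eq, pi_eq, h1, card_union_of_disjoint h2]
  push_cast
  ring

open Pool.Agent.H357R2.SI Pool.Agent.TH886.PD in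
lemma R_eq (a : ℝ) (n : ℕ) : R a n = psi n (Real.log n ^ a) := by
  have hl : 0 ≤ Real.log (n : ℝ) := Real.log_natCast_nonneg n
  have hH : 0 ≤ Real.log (n : ℝ) ^ a := Real.rpow_nonneg hl a
  unfold R psi piS
  rw [card_Ioc (Nat.floor_mono (by linarith))]
  ring

/-- the third assertion follows from the second -/
lemma few_small (ε : ℝ) (hε : 0 < ε) (N : ℕ) (s t : ℝ) (hst : s ≤ t)
    (h : ∀ a : ℕ → ℝ, (∀ p, s ≤ a p ∧ a p ≤ t) →
      ∑ p ∈ (range N).filter Nat.Prime, 1 / max (R (a p) p) ε ≤ (1 + ε) * Nat.primeCounting N)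
    (μ : ℝ) (hμ : ε ≤ μ) (S : Finset ℕ)
    (hS : ∀ p, p ∈ S ↔ p < N ∧ p.Prime ∧ ∃ a : ℝ, s ≤ a ∧ a ≤ t ∧ R a p ≤ μ) :
    (S.card : ℝ) ≤ (1 + ε) * μ * Nat.primeCounting N := by
  classical
  have hμ0 : 0 < μ := hε.trans_le hμ
  have hex : ∀ p : ℕ, ∃ a : ℝ, (s ≤ a ∧ a ≤ t) ∧ (p ∈ S → R a p ≤ μ) := by
    intro p
    by_cases hp : p ∈ S
    · obtain ⟨-, -, a, h1, h2, h3⟩ := (hS p).1 hp
      exact ⟨a, ⟨h1, h2⟩, fun _ => h3⟩
    · exact ⟨s, ⟨le_rfl, hst⟩, fun h => absurd h hp⟩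
  choose a ha1 ha2 using hex
  have h1 := h a ha1
  have h2 : ∑ p ∈ S, 1 / μ ≤ ∑ p ∈ (range N).filter Nat.Prime, 1 / max (R (a p) p) ε := by
    have hsub : S ⊆ (range N).filter Nat.Prime := by
      intro p hp
      obtain ⟨h3, h4, -⟩ := (hS p).1 hp
      rw [mem_filter, mem_range]
      exact ⟨h3, h4⟩
    refine le_trans (sum_le_sum fun p hp => ?_) (sum_le_sum_of_subset_of_nonneg hsub fun p _ _ => ?_)
    · apply one_div_le_one_div_of_le
      · exact lt_of_lt_of_le hε (le_max_right _ _)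
      · exact max_le (ha2 p hp) hμ
    · have : 0 < max (R (a p) p) ε := lt_of_lt_of_le hε (le_max_right _ _)
      positivity
  rw [sum_const, nsmul_eq_mul] at h2
  have h3 := h2.trans h1
  rw [mul_one_div, div_le_iff₀ hμ0] at h3
  linarith

open Classical Pool.Agent.H357R2.SI Pool.Agent.TH886.PD in
theorem main (ε : ℝ) (hε : 0 < ε) (hε1 : ε ≤ 1) : ∃ K : ℕ, ∀ s t : ℕ → ℝ, 3 < s 0 →
    (∀ i, s i ≤ t i) → (∀ i, t i < s (i + 1)) → (∀ i, s i + 2 ≤ s (i + 1)) →
      ∀ m : ℕ, ∀ᶠ N : ℕ in atTop, ∃ B : Finset ℕ, B.card ≤ K ∧ ∀ i < m, i ∉ B →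
        Good ε N (s i) (t i) := by
  obtain ⟨K, hK⟩ := core2 ε hε hε1
  refine ⟨K, fun s t hs0 hst hts hs2 m => ?_⟩
  obtain ⟨δ₁, hδ₁⟩ : ∃ δ₁ : ℝ, δ₁ = ε ^ 2 / 128 := ⟨_, rfl⟩
  have hδ₁0 : 0 < δ₁ := by rw [hδ₁]; positivity
  have hδ₁1 : δ₁ ≤ 1 / 2 := by rw [hδ₁]; nlinarith
  have hsmono : Monotone s := monotone_nat_of_le_succ fun i => (hst i).trans (hts i).le
  have hs3 : ∀ i, 3 < s i := fun i => hs0.trans_le (hsmono (Nat.zero_le i))
  have hNr : Tendsto (fun N : ℕ => (N : ℝ)) atTop atTop := tendsto_natCast_atTop_atTop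
  have hlogN : Tendsto (fun N : ℕ => Real.log (N : ℝ)) atTop atTop :=
    Real.tendsto_log_atTop.comp hNr
  have hpow : ∀ u : ℝ, 0 < u → Tendsto (fun N : ℕ => Real.log (N : ℝ) ^ u) atTop atTop :=
    fun u hu => (tendsto_rpow_atTop hu).comp hlogN
  have hfin : ∀ p : ℕ → ℕ → Prop, (∀ i, ∀ᶠ N : ℕ in atTop, p i N) →
      ∀ᶠ N : ℕ in atTop, ∀ i ∈ range m, p i N := fun p hp =>
    (eventually_all_finset (range m)).2 fun i _ => hp i
  -- eventual facts
  have e1 := hfin (fun i N => 4 ≤ Real.log (N : ℝ) ^ (s (i + 1) - t i)) fun i =>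
    (hpow _ (by linarith [hts i])).eventually_ge_atTop 4
  have e2 := hfin (fun i N => Real.log (N : ℝ) ^ s i / 2 ≤
      (Real.log (N : ℝ) - Real.log (1 / δ₁)) ^ s i) fun i => by
    have hsi : 0 < s i := by linarith [hs3 i]
    obtain ⟨q, hq⟩ : ∃ q : ℝ, q = (1 / 2 : ℝ) ^ (1 / s i) := ⟨_, rfl⟩
    have hq0 : 0 < q := by rw [hq]; positivity
    have hq1 : q < 1 := by
      rw [hq]
      exact Real.rpow_lt_one (by norm_num) (by norm_num) (by positivity)
    have hqs : q ^ s i = 1 / 2 := by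
      rw [hq, ← Real.rpow_mul (by norm_num), one_div_mul_cancel hsi.ne', Real.rpow_one]
    filter_upwards [hlogN.eventually_ge_atTop (Real.log (1 / δ₁) / (1 - q)),
      hlogN.eventually_ge_atTop 0] with N h1 h2
    rw [div_le_iff₀ (by linarith)] at h1
    calc Real.log (N : ℝ) ^ s i / 2 = (q * Real.log N) ^ s i := by
          rw [Real.mul_rpow hq0.le h2, hqs]; ring
      _ ≤ _ := Real.rpow_le_rpow (by positivity) (by linarith) hsi.le
  have e3 : ∀ᶠ N : ℕ in atTop, Real.log N ^ 3 ≤ Real.log N ^ s 0 / 2 := by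
    filter_upwards [(hpow (s 0 - 3) (by linarith)).eventually_ge_atTop 2,
      hlogN.eventually_gt_atTop 0] with N h1 h2
    have h3 : Real.log (N : ℝ) ^ s 0 = Real.log (N : ℝ) ^ (s 0 - 3) * Real.log N ^ 3 := by
      rw [← Real.rpow_natCast (Real.log (N : ℝ)) 3, ← Real.rpow_add h2]
      congr 1
      push_cast
      ring
    rw [h3]
    have h4 : 0 < Real.log (N : ℝ) ^ 3 := by positivity
    nlinarith
  have hsub : ∀ u : ℝ, ∀ᶠ N : ℕ in atTop, Real.log (N : ℝ) ^ u ≤ N := by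
    intro u
    have h := ((isLittleO_log_rpow_rpow_atTop u one_pos).comp_tendsto hNr).bound one_pos
    filter_upwards [h, eventually_ge_atTop 1] with N hN hN1
    have hN1' : (1 : ℝ) ≤ N := by exact_mod_cast hN1
    have hl := Real.log_nonneg hN1'
    simp only [Function.comp_def, one_mul, Real.rpow_one] at hN
    rwa [Real.norm_of_nonneg (by positivity), Real.norm_of_nonneg (by positivity)] at hN
  have e4 := hsub (s m)
  filter_upwards [hK, e1, e2, e3, e4, hlogN.eventually_ge_atTop (1 + Real.log (1 / δ₁)),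
    hlogN.eventually_ge_atTop 1, hNr.eventually_ge_atTop (1 / δ₁), eventually_ge_atTop 1]
    with N hKN g1 g2 g3 g4 g5 g6 g8 g9
  have hN0 : (0 : ℝ) < N := by exact_mod_cast g9
  obtain ⟨T, hT⟩ : ∃ T : ℕ → ℝ, T = fun i => Real.log (N : ℝ) ^ s i / 2 := ⟨_, rfl⟩
  have hTi : ∀ i, T i = Real.log (N : ℝ) ^ s i / 2 := fun i => by rw [hT]
  have hl0 : 0 < Real.log (N : ℝ) := by linarith
  have hstep : ∀ i < m, Real.log (N : ℝ) ^ t i ≤ T (i + 1) / 2 := by
    intro i hi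
    have h1 := g1 i (mem_range.2 hi)
    have h2 : Real.log (N : ℝ) ^ s (i + 1) =
        Real.log (N : ℝ) ^ (s (i + 1) - t i) * Real.log (N : ℝ) ^ t i := by
      rw [← Real.rpow_add hl0]
      congr 1
      ring
    have h3 : 0 < Real.log (N : ℝ) ^ t i := by positivity
    rw [hTi, h2]
    nlinarith
  obtain ⟨B, hB, hBi⟩ := hKN m T (by rw [hTi]; exact g3) (by
      intro i hi
      rw [hTi, hTi]
      have h2 : Real.log (N : ℝ) ^ 2 * Real.log (N : ℝ) ^ s i ≤ Real.log (N : ℝ) ^ s (i + 1) := by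
        rw [← Real.rpow_natCast (Real.log (N : ℝ)) 2, ← Real.rpow_add hl0]
        apply Real.rpow_le_rpow_of_exponent_le g6
        push_cast
        linarith [hs2 i]
      linarith) (by
      rw [hTi]
      have h1 : 0 < Real.log (N : ℝ) ^ s m := by positivity
      linarith)
  refine ⟨B, hB, fun i hi hiB => ?_⟩
  obtain ⟨G, hG1, hG2, hG3, hG4⟩ := hBi i hi hiB
  rw [← hδ₁] at hG1
  have him := mem_range.2 hi
  have hwin : ∀ p ∈ G, ∀ x : ℝ, s i ≤ x → x ≤ t i → T i ≤ Real.log (p : ℝ) ^ x ∧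
      Real.log (p : ℝ) ^ x ≤ T (i + 1) / 2 := by
    intro p hp x hx1 hx2
    obtain ⟨-, hpN, hpge⟩ := hG1 p hp
    have hpNr : (p : ℝ) ≤ N := by exact_mod_cast hpN.le
    have hp1 : (1 : ℝ) ≤ p := by
      rw [div_le_iff₀ hδ₁0] at g8
      linarith
    have hlogle : Real.log p ≤ Real.log N := Real.log_le_log (by linarith) hpNr
    have hlogge : Real.log N - Real.log (1 / δ₁) ≤ Real.log p := by
      have h1 : Real.log (δ₁ * N) ≤ Real.log p := Real.log_le_log (by positivity) hpge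
      rw [Real.log_mul hδ₁0.ne' hN0.ne'] at h1
      rw [one_div, Real.log_inv]
      linarith
    have hlog1 : 1 ≤ Real.log (p : ℝ) := by linarith
    constructor
    · rw [hTi]
      calc _ ≤ (Real.log (N : ℝ) - Real.log (1 / δ₁)) ^ s i := g2 i him
        _ ≤ Real.log (p : ℝ) ^ s i :=
            Real.rpow_le_rpow (by linarith) hlogge (by linarith [hs3 i])
        _ ≤ Real.log (p : ℝ) ^ x := Real.rpow_le_rpow_of_exponent_le hlog1 hx1
    · calc _ ≤ Real.log (p : ℝ) ^ t i := Real.rpow_le_rpow_of_exponent_le hlog1 hx2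
        _ ≤ Real.log (N : ℝ) ^ t i :=
            Real.rpow_le_rpow (by linarith) hlogle (by linarith [hs3 i, hst i])
        _ ≤ _ := hstep i hi
  have h2 : ∀ a : ℕ → ℝ, (∀ p, s i ≤ a p ∧ a p ≤ t i) →
      ∑ p ∈ (range N).filter Nat.Prime, 1 / max (R (a p) p) ε ≤ (1 + ε) * Nat.primeCounting N := by
    intro a ha
    refine hG4 (fun p => R (a p) p) fun p hp => ?_
    obtain ⟨a1, a2⟩ := hwin p hp (a p) (ha p).1 (ha p).2
    exact ⟨_, a1, a2, R_eq _ _⟩
  refine ⟨?_, h2, fun μ hμ => ?_⟩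
  · refine le_trans ?_ hG2
    refine Nat.cast_le.2 (card_le_card fun p hp => ?_)
    rw [mem_filter] at hp ⊢
    refine ⟨hp.1, hp.2.1, fun hpG => hp.2.2 ?_⟩
    intro a b ha1 ha2 hb1 hb2
    obtain ⟨a1, a2⟩ := hwin p hpG a ha1 ha2
    obtain ⟨b1, b2⟩ := hwin p hpG b hb1 hb2
    rw [R_eq, R_eq]
    exact hG3 p hpG _ _ a1 a2 b1 b2
  · refine few_small ε hε N (s i) (t i) (hst i) h2 μ hμ _ fun p => ?_
    rw [mem_filter, mem_range]

theorem result (ε : ℝ) (hε : 0 < ε) (hε1 : ε ≤ 1) :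
    (∃ K : ℕ, ∀ s t : ℕ → ℝ, 3 < s 0 → (∀ i, s i ≤ t i) → (∀ i, t i < s (i + 1)) →
      (∀ i, s i + 2 ≤ s (i + 1)) → ∀ m : ℕ, ∀ᶠ N : ℕ in atTop, ∃ B : Finset ℕ, B.card ≤ K ∧
        ∀ i < m, i ∉ B → Good ε N (s i) (t i)) ∧
    ∀ (A : ℝ) (F : ℝ → ℝ), (∀ x, x ≤ F x) → ∃ A' : ℝ, ∀ᶠ N : ℕ in atTop,
      ∃ s : ℝ, A ≤ s ∧ s ≤ A' ∧ Good ε N s (F s) := by
  obtain ⟨K, hK⟩ := main ε hε hε1
  refine ⟨⟨K, hK⟩, fun A F hF => ?_⟩
  obtain ⟨s, hs⟩ : ∃ s : ℕ → ℝ, s = fun i => Nat.rec (max A 4) (fun _ x => F x + 2) i := ⟨_, rfl⟩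
  have hs0 : s 0 = max A 4 := congrFun hs 0
  have hss : ∀ i, s (i + 1) = F (s i) + 2 := fun i => by subst hs; rfl
  have hmono : Monotone s := monotone_nat_of_le_succ fun i => by
    rw [hss]
    linarith [hF (s i)]
  refine ⟨s K, ?_⟩
  filter_upwards [hK s (fun i => F (s i)) (by rw [hs0]; linarith [le_max_right A 4])
    (fun i => hF _) (fun i => by rw [hss]; linarith) (fun i => by rw [hss]; linarith [hF (s i)])
    (K + 1)] with N hN
  obtain ⟨B, hB, hBi⟩ := hN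
  obtain ⟨i, hi1, hi2⟩ : ∃ i ∈ range (K + 1), i ∉ B :=
    exists_mem_notMem_of_card_lt_card (by rw [card_range]; omega)
  rw [mem_range] at hi1
  refine ⟨s i, ?_, hmono (by omega), hBi i hi1 hi2⟩
  calc A ≤ max A 4 := le_max_left _ _
    _ = s 0 := hs0.symm
    _ ≤ s i := hmono (Nat.zero_le i)

end Pool.Agent.Results.MP_b09185_nt.HarmonicMeanAtPrimes
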