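import Mathlib

/-!
# `U_a` is nonincreasing and `L_a` is nondecreasing in `a`; one exponent suffices; uniformity in the length

`R h x = (log x / h) (π(x + h) - π(x))`, and `U a`, `L a` are the upper and the lower limit (in the extended
real numbers) of `R h x` for `h = (log x) ^ a`, as `x → ∞`.

* `U b ≤ U a` and `L a ≤ L b` for `0 < a ≤ b`. More generally, for `0 < a < b` the numbers `R h x`, for ALL
  `(log x) ^ b ≤ h ≤ x` at once, have upper limit at most `U a` and lower limit at least `L a`.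
* The following are equivalent: (0) `L a → 1` and `U a → 1` as `a → ∞`; (1) for every `ε > 0` there is `a₀` such
  that for all `a ≥ a₀` the number `R ((log x) ^ a) x` is within `ε` of `1` for all large `x`; (2) for every
  `ε > 0` there is ONE `a > 0` with this property; (3) for every `ε > 0` there is `N` such that `R h x` is within
  `ε` of `1` for ALL `x ≥ N` and ALL `(log x) ^ N ≤ h ≤ x`.
-/

set_option autoImplicit false

namespace Pool.Agent.Results.MP_b09185_nt.OneExponentSuffices

open Filter Topology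

/-- `R_h(x)` -/
noncomputable def R (h x : ℝ) : ℝ :=
  Real.log x / h * ((Nat.primeCounting ⌊x + h⌋₊ : ℝ) - Nat.primeCounting ⌊x⌋₊)

/-- `U_a`, the upper limit of `R_h(x)` for `h(x) = (log x) ^ a` -/
noncomputable def U (a : ℝ) : EReal := limsup (fun x : ℝ => ((R (Real.log x ^ a) x : ℝ) : EReal)) atTop

/-- `L_a`, the lower limit of `R_h(x)` for `h(x) = (log x) ^ a` -/
noncomputable def L (a : ℝ) : EReal := liminf (fun x : ℝ => ((R (Real.log x ^ a) x : ℝ) : EReal)) atTop

noncomputable def P (t : ℝ) : ℝ := (Nat.primeCounting ⌊t⌋₊ : ℝ)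

lemma P_mono {s t : ℝ} (h : s ≤ t) : P s ≤ P t := by
  unfold P
  exact Nat.cast_le.2 (Nat.monotone_primeCounting (Nat.floor_mono h))

lemma R_def (h x : ℝ) : R h x = Real.log x / h * (P (x + h) - P x) := rfl

lemma R_nonneg {h x : ℝ} (hh : 0 ≤ h) (hx : 1 ≤ x) : 0 ≤ R h x := by
  rw [R_def]
  have h1 : P x ≤ P (x + h) := P_mono (by linarith)
  have h2 := Real.log_nonneg hx
  have h3 : 0 ≤ P (x + h) - P x := by linarith
  positivity

/-- consecutive windows of length `(log y) ^ a` -/
noncomputable def y (a x : ℝ) : ℕ → ℝ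
  | 0 => x
  | i + 1 => y a x i + Real.log (y a x i) ^ a

lemma log_one_le {x : ℝ} (hx : 3 ≤ x) : 1 ≤ Real.log x := by
  rw [Real.le_log_iff_exp_le (by linarith)]
  have := Real.exp_one_lt_d9
  linarith

lemma y_ge {a x : ℝ} (ha : 0 < a) (hx : 3 ≤ x) (i : ℕ) : x + i ≤ y a x i := by
  induction i with
  | zero => simp [y]
  | succ i ih =>
    rw [y]
    have h0 : (0 : ℝ) ≤ i := Nat.cast_nonneg i
    have h1 : 1 ≤ Real.log (y a x i) := log_one_le (by linarith)
    have h2 : 1 ≤ Real.log (y a x i) ^ a := Real.one_le_rpow h1 ha.le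
    push_cast
    linarith

lemma upper_seq {a x β : ℝ} (ha : 0 < a) (hx : 3 ≤ x) (hβ : 0 ≤ β)
    (h : ∀ z, x ≤ z → R (Real.log z ^ a) z ≤ β) (i : ℕ) :
    P (y a x i) - P x ≤ β * (y a x i - x) / Real.log x := by
  induction i with
  | zero => simp [y]
  | succ i ih =>
    have hi : x ≤ y a x i := by
      have := y_ge ha hx i
      have h0 : (0 : ℝ) ≤ i := Nat.cast_nonneg i
      linarith
    obtain ⟨z, hz⟩ : ∃ z, z = y a x i := ⟨_, rfl⟩
    rw [y]
    rw [← hz] at hi ih ⊢
    have h1 := h z hi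
    rw [R_def] at h1
    have hlx : 1 ≤ Real.log x := log_one_le hx
    have hl : Real.log x ≤ Real.log z := Real.log_le_log (by linarith) hi
    have hlz : 0 < Real.log z := by linarith
    have hH : 0 < Real.log z ^ a := by positivity
    rw [div_mul_eq_mul_div, div_le_iff₀ hH] at h1
    have h2 : P (z + Real.log z ^ a) - P z ≤ β * Real.log z ^ a / Real.log x := by
      rw [le_div_iff₀ (by linarith)]
      have h3 : 0 ≤ P (z + Real.log z ^ a) - P z := by
        have := P_mono (show z ≤ z + Real.log z ^ a by linarith)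
        linarith
      calc _ ≤ (P (z + Real.log z ^ a) - P z) * Real.log z := mul_le_mul_of_nonneg_left hl h3
        _ = Real.log z * (P (z + Real.log z ^ a) - P z) := mul_comm _ _
        _ ≤ _ := h1
    have e : β * (z + Real.log z ^ a - x) / Real.log x =
        β * (z - x) / Real.log x + β * Real.log z ^ a / Real.log x := by ring
    rw [e]
    linarith

lemma lower_seq {a x α : ℝ} (ha : 0 < a) (hx : 3 ≤ x) (hα : 0 ≤ α)
    (h : ∀ z, x ≤ z → α ≤ R (Real.log z ^ a) z) (i : ℕ) (hi2 : y a x i ≤ 2 * x) :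
    α * (y a x i - x) / Real.log (2 * x) ≤ P (y a x i) - P x := by
  induction i with
  | zero => simp [y]
  | succ i ih =>
    have hi : x ≤ y a x i := by
      have := y_ge ha hx i
      have h0 : (0 : ℝ) ≤ i := Nat.cast_nonneg i
      linarith
    obtain ⟨z, hz⟩ : ∃ z, z = y a x i := ⟨_, rfl⟩
    rw [y] at hi2 ⊢
    rw [← hz] at hi ih hi2 ⊢
    have hlz : 0 < Real.log z := by
      have := log_one_le (show 3 ≤ z by linarith)
      linarith
    have hH : 0 < Real.log z ^ a := by positivity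
    have ih' := ih (by linarith)
    have h1 := h z hi
    rw [R_def] at h1
    have hl : Real.log z ≤ Real.log (2 * x) := Real.log_le_log (by linarith) (by linarith)
    rw [div_mul_eq_mul_div, le_div_iff₀ hH] at h1
    have h2 : α * Real.log z ^ a / Real.log (2 * x) ≤ P (z + Real.log z ^ a) - P z := by
      rw [div_le_iff₀ (by linarith)]
      have h3 : 0 ≤ P (z + Real.log z ^ a) - P z := by
        have := P_mono (show z ≤ z + Real.log z ^ a by linarith)
        linarith
      calc _ ≤ Real.log z * (P (z + Real.log z ^ a) - P z) := h1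
        _ = (P (z + Real.log z ^ a) - P z) * Real.log z := mul_comm _ _
        _ ≤ _ := mul_le_mul_of_nonneg_left hl h3
    have e : α * (z + Real.log z ^ a - x) / Real.log (2 * x) =
        α * (z - x) / Real.log (2 * x) + α * Real.log z ^ a / Real.log (2 * x) := by ring
    rw [e]
    linarith

/-- the last window meeting `(x, x + h]` -/
lemma last_window {a x h : ℝ} (ha : 0 < a) (hx : 3 ≤ x) (hh : 0 ≤ h) (hhx : h ≤ x) : ∃ k : ℕ,
    y a x k ≤ x + h ∧ x + h < y a x (k + 1) ∧
      y a x (k + 1) - y a x k ≤ Real.log (2 * x) ^ a := by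
  classical
  have hex : ∃ k : ℕ, x + h < y a x k := by
    obtain ⟨k, hk⟩ := exists_nat_gt h
    exact ⟨k, by linarith [y_ge ha hx k]⟩
  obtain ⟨k, hk⟩ : ∃ k, k = Nat.find hex := ⟨_, rfl⟩
  have hk1 : x + h < y a x k := by rw [hk]; exact Nat.find_spec hex
  rcases Nat.eq_zero_or_pos k with h0 | h0
  · exfalso
    rw [h0, y] at hk1
    linarith
  obtain ⟨j, rfl⟩ : ∃ j, k = j + 1 := ⟨k - 1, by omega⟩
  have hj : y a x j ≤ x + h := by
    by_contra hcon
    have := Nat.find_min hex (m := j) (by omega)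
    exact this (not_le.1 hcon)
  refine ⟨j, hj, hk1, ?_⟩
  have hjx : x ≤ y a x j := by
    have := y_ge ha hx j
    have h0 : (0 : ℝ) ≤ j := Nat.cast_nonneg j
    linarith
  rw [y, add_sub_cancel_left]
  have h1 := log_one_le (show 3 ≤ y a x j by linarith)
  exact Real.rpow_le_rpow (by linarith) (Real.log_le_log (by linarith) (by linarith)) ha.le

lemma upper_window {a x h β : ℝ} (ha : 0 < a) (hx : 3 ≤ x) (hβ : 0 ≤ β) (hh : 0 < h) (hhx : h ≤ x)
    (hR : ∀ z, x ≤ z → R (Real.log z ^ a) z ≤ β) :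
    R h x ≤ β * (1 + Real.log (2 * x) ^ a / h) := by
  obtain ⟨k, h1, h2, h3⟩ := last_window ha hx hh.le hhx
  have h4 := upper_seq ha hx hβ hR (k + 1)
  have h5 : P (x + h) ≤ P (y a x (k + 1)) := P_mono h2.le
  have hlx : 1 ≤ Real.log x := log_one_le hx
  have hl0 : 0 < Real.log x := by linarith
  have h6 : β * (y a x (k + 1) - x) / Real.log x ≤ β * (h + Real.log (2 * x) ^ a) / Real.log x := by
    have : y a x (k + 1) - x ≤ h + Real.log (2 * x) ^ a := by linarith
    gcongr
  rw [R_def]
  have h7 : P (x + h) - P x ≤ β * (h + Real.log (2 * x) ^ a) / Real.log x := by linarith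
  calc _ ≤ Real.log x / h * (β * (h + Real.log (2 * x) ^ a) / Real.log x) :=
        mul_le_mul_of_nonneg_left h7 (by positivity)
    _ = _ := by field_simp

lemma lower_window {a x h α : ℝ} (ha : 0 < a) (hx : 3 ≤ x) (hα : 0 ≤ α) (hh : 0 < h) (hhx : h ≤ x)
    (hR : ∀ z, x ≤ z → α ≤ R (Real.log z ^ a) z) :
    α * (1 - Real.log (2 * x) ^ a / h) * (Real.log x / Real.log (2 * x)) ≤ R h x := by
  obtain ⟨k, h1, h2, h3⟩ := last_window ha hx hh.le hhx
  have h4 := lower_seq ha hx hα hR k (by linarith)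
  have h5 : P (y a x k) ≤ P (x + h) := P_mono h1
  have hlx : 1 ≤ Real.log x := log_one_le hx
  have hl0 : 0 < Real.log x := by linarith
  have hl2 : 0 < Real.log (2 * x) := by
    have := log_one_le (show 3 ≤ 2 * x by linarith)
    linarith
  have h6 : α * (h - Real.log (2 * x) ^ a) / Real.log (2 * x) ≤
      α * (y a x k - x) / Real.log (2 * x) := by
    have : h - Real.log (2 * x) ^ a ≤ y a x k - x := by linarith
    gcongr
  rw [R_def]
  have h7 : α * (h - Real.log (2 * x) ^ a) / Real.log (2 * x) ≤ P (x + h) - P x := by linarith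
  calc _ = Real.log x / h * (α * (h - Real.log (2 * x) ^ a) / Real.log (2 * x)) := by field_simp
    _ ≤ _ := mul_le_mul_of_nonneg_left h7 (by positivity)

lemma log_two_ratio : Tendsto (fun x : ℝ => Real.log (2 * x) / Real.log x) atTop (𝓝 1) := by
  have h1 : Tendsto (fun x : ℝ => Real.log 2 / Real.log x + 1) atTop (𝓝 (0 + 1)) :=
    (tendsto_const_nhds.div_atTop Real.tendsto_log_atTop).add tendsto_const_nhds
  rw [zero_add] at h1
  refine h1.congr' ?_
  filter_upwards [eventually_ge_atTop 3] with x hx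
  have hlx : 1 ≤ Real.log x := log_one_le hx
  have hl0 : Real.log x ≠ 0 := by linarith
  rw [Real.log_mul (by norm_num) (by linarith), add_div, div_self hl0]

lemma small_ratio {a b : ℝ} (ha : 0 < a) (hab : a < b) :
    Tendsto (fun x : ℝ => Real.log (2 * x) ^ a / Real.log x ^ b) atTop (𝓝 0) := by
  have h1 : Tendsto (fun x : ℝ => (Real.log (2 * x) / Real.log x) ^ a * Real.log x ^ (-(b - a)))
      atTop (𝓝 (1 ^ a * 0)) :=
    (log_two_ratio.rpow_const (Or.inr ha.le)).mul
      ((tendsto_rpow_neg_atTop (by linarith)).comp Real.tendsto_log_atTop)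
  rw [mul_zero] at h1
  refine h1.congr' ?_
  filter_upwards [eventually_ge_atTop 3] with x hx
  have hlx : 1 ≤ Real.log x := log_one_le hx
  have hl0 : 0 < Real.log x := by linarith
  have hl2 : 0 ≤ Real.log (2 * x) := by
    have := log_one_le (show 3 ≤ 2 * x by linarith)
    linarith
  have e : -(b - a) = a - b := by ring
  rw [Real.div_rpow hl2 hl0.le, e, Real.rpow_sub hl0]
  field_simp

lemma upper_all {a b β : ℝ} (ha : 0 < a) (hab : a < b) (hβ : 0 ≤ β)
    (h : ∀ᶠ z : ℝ in atTop, R (Real.log z ^ a) z ≤ β) (η : ℝ) (hη : 0 < η) :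
    ∀ᶠ x : ℝ in atTop, ∀ w : ℝ, Real.log x ^ b ≤ w → w ≤ x → R w x ≤ β + η := by
  obtain ⟨z₀, hz₀⟩ := h.exists_forall_of_atTop
  have h1 := (small_ratio ha hab).eventually (eventually_le_nhds (show (0 : ℝ) < η / (β + 1) by
    positivity))
  filter_upwards [h1, eventually_ge_atTop 3, eventually_ge_atTop z₀] with x h2 hx hxz w hw1 hw2
  have hlx : 1 ≤ Real.log x := log_one_le hx
  have hl0 : 0 < Real.log x := by linarith
  have hb : 0 < Real.log x ^ b := by positivity
  have hw0 : 0 < w := by linarith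
  have hl2 : 0 ≤ Real.log (2 * x) ^ a := by
    have := log_one_le (show 3 ≤ 2 * x by linarith)
    positivity
  have h3 := upper_window ha hx hβ hw0 hw2 (fun z hz => hz₀ z (hxz.trans hz))
  have h4 : Real.log (2 * x) ^ a / w ≤ η / (β + 1) := by
    refine le_trans ?_ h2
    gcongr
  have h5 : β * (Real.log (2 * x) ^ a / w) ≤ η := by
    calc _ ≤ β * (η / (β + 1)) := mul_le_mul_of_nonneg_left h4 hβ
      _ ≤ (β + 1) * (η / (β + 1)) := by gcongr; linarith
      _ = η := by field_simp
  linarith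

lemma lower_all {a b α : ℝ} (ha : 0 < a) (hab : a < b)
    (h : ∀ᶠ z : ℝ in atTop, α ≤ R (Real.log z ^ a) z) (η : ℝ) (hη : 0 < η) :
    ∀ᶠ x : ℝ in atTop, ∀ w : ℝ, Real.log x ^ b ≤ w → w ≤ x → α - η ≤ R w x := by
  rcases lt_or_ge α 0 with hα | hα
  · filter_upwards [eventually_ge_atTop 3] with x hx w hw1 hw2
    have hlx : 1 ≤ Real.log x := log_one_le hx
    have hb : 0 < Real.log x ^ b := by positivity
    have := R_nonneg (show 0 ≤ w by linarith) (show 1 ≤ x by linarith)
    linarith
  obtain ⟨z₀, hz₀⟩ := h.exists_forall_of_atTop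
  obtain ⟨q, hq⟩ : ∃ q : ℝ, q = η / (2 * (α + 1)) := ⟨_, rfl⟩
  have hq0 : 0 < q := by rw [hq]; positivity
  have h1 := (small_ratio ha hab).eventually (eventually_le_nhds hq0)
  have h1' := log_two_ratio.eventually (eventually_le_nhds (show (1 : ℝ) < 1 + q by linarith))
  filter_upwards [h1, h1', eventually_ge_atTop 3, eventually_ge_atTop z₀] with x h2 h2' hx hxz w hw1 hw2
  have hlx : 1 ≤ Real.log x := log_one_le hx
  have hl0 : 0 < Real.log x := by linarith
  have hb : 0 < Real.log x ^ b := by positivity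
  have hw0 : 0 < w := by linarith
  have hl2 : 0 < Real.log (2 * x) := by
    have := log_one_le (show 3 ≤ 2 * x by linarith)
    linarith
  have hl2a : 0 ≤ Real.log (2 * x) ^ a := by positivity
  have h3 := lower_window ha hx hα hw0 hw2 (fun z hz => hz₀ z (hxz.trans hz))
  have h4 : Real.log (2 * x) ^ a / w ≤ q := by
    refine le_trans ?_ h2
    gcongr
  have h4' : 0 ≤ Real.log (2 * x) ^ a / w := by positivity
  have h5 : 1 - q ≤ Real.log x / Real.log (2 * x) := by
    rw [div_le_iff₀ hl0] at h2'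
    rw [le_div_iff₀ hl2]
    rcases le_or_gt q 1 with hq1 | hq1
    · calc (1 - q) * Real.log (2 * x) ≤ (1 - q) * ((1 + q) * Real.log x) :=
            mul_le_mul_of_nonneg_left h2' (by linarith)
        _ = Real.log x - q ^ 2 * Real.log x := by ring
        _ ≤ Real.log x := by
          have : 0 ≤ q ^ 2 * Real.log x := by positivity
          linarith
    · have : (q - 1) * Real.log (2 * x) > 0 := mul_pos (by linarith) hl2
      linarith
  have h5' : Real.log x / Real.log (2 * x) ≤ 1 := by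
    rw [div_le_one hl2]
    exact Real.log_le_log (by linarith) (by linarith)
  obtain ⟨u, hu⟩ : ∃ u, u = Real.log (2 * x) ^ a / w := ⟨_, rfl⟩
  obtain ⟨v, hv⟩ : ∃ v, v = Real.log x / Real.log (2 * x) := ⟨_, rfl⟩
  rw [← hu] at h3 h4 h4'
  rw [← hv] at h3 h5 h5'
  have hv0 : 0 ≤ v := by rw [hv]; positivity
  have h6 : 1 - 2 * q ≤ (1 - u) * v := by nlinarith
  have h7 : α * (1 - 2 * q) ≤ α * (1 - u) * v := by
    rw [mul_assoc]
    exact mul_le_mul_of_nonneg_left h6 hα
  have h8 : α * (2 * q) ≤ η := by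
    calc α * (2 * q) ≤ (α + 1) * (2 * q) := by gcongr; linarith
      _ = η := by rw [hq]; field_simp
  linarith

lemma pow_le_self (b : ℝ) : ∀ᶠ x : ℝ in atTop, Real.log x ^ b ≤ x := by
  have h := (isLittleO_log_rpow_rpow_atTop b one_pos).bound one_pos
  filter_upwards [h, eventually_ge_atTop 3] with x hx hx3
  have hlx : 1 ≤ Real.log x := log_one_le hx3
  simp only [one_mul, Real.rpow_one] at hx
  rwa [Real.norm_of_nonneg (by positivity), Real.norm_of_nonneg (by linarith)] at hx

lemma limsup_all {a b : ℝ} (ha : 0 < a) (hab : a < b) (c : EReal) (hc : U a < c) :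
    ∀ᶠ x : ℝ in atTop, ∀ w : ℝ, Real.log x ^ b ≤ w → w ≤ x → ((R w x : ℝ) : EReal) < c := by
  obtain ⟨β, h1, h2⟩ := EReal.lt_iff_exists_real_btwn.1 hc
  obtain ⟨β', h3, h4⟩ := EReal.lt_iff_exists_real_btwn.1 h2
  have h3' : β < β' := by exact_mod_cast h3
  have h5 : ∀ᶠ z : ℝ in atTop, R (Real.log z ^ a) z < β := by
    have := eventually_lt_of_limsup_lt h1
    filter_upwards [this] with z hz
    exact_mod_cast hz
  have hβ : 0 ≤ β := by
    obtain ⟨z, hz1, hz2⟩ := (h5.and (eventually_ge_atTop 3)).exists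
    have hlx : 1 ≤ Real.log z := log_one_le hz2
    have := R_nonneg (show 0 ≤ Real.log z ^ a by positivity) (show 1 ≤ z by linarith)
    linarith
  filter_upwards [upper_all ha hab hβ (h5.mono fun z hz => hz.le) (β' - β) (by linarith)]
    with x hx w hw1 hw2
  have h6 := hx w hw1 hw2
  have h7 : ((R w x : ℝ) : EReal) ≤ (β' : EReal) := by
    have : R w x ≤ β' := by linarith
    exact_mod_cast this
  exact h7.trans_lt h4

lemma liminf_all {a b : ℝ} (ha : 0 < a) (hab : a < b) (c : EReal) (hc : c < L a) :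
    ∀ᶠ x : ℝ in atTop, ∀ w : ℝ, Real.log x ^ b ≤ w → w ≤ x → c < ((R w x : ℝ) : EReal) := by
  obtain ⟨α, h1, h2⟩ := EReal.lt_iff_exists_real_btwn.1 hc
  obtain ⟨α', h3, h4⟩ := EReal.lt_iff_exists_real_btwn.1 h1
  have h4' : α' < α := by exact_mod_cast h4
  have h5 : ∀ᶠ z : ℝ in atTop, α < R (Real.log z ^ a) z := by
    have := eventually_lt_of_lt_liminf h2
    filter_upwards [this] with z hz
    exact_mod_cast hz
  filter_upwards [lower_all ha hab (h5.mono fun z hz => hz.le) (α - α') (by linarith)]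
    with x hx w hw1 hw2
  have h6 := hx w hw1 hw2
  have h7 : (α' : EReal) ≤ ((R w x : ℝ) : EReal) := by
    have : α' ≤ R w x := by linarith
    exact_mod_cast this
  exact h3.trans_le h7

/-- `R_h(x)` is within `ε` of `1` for `h(x) = (log x) ^ a` and all large `x` -/
def Near (ε a : ℝ) : Prop := ∀ᶠ x : ℝ in atTop, |R (Real.log x ^ a) x - 1| ≤ ε

lemma L_le_U (a : ℝ) : L a ≤ U a := liminf_le_limsup

lemma near_of {a ε : ℝ} (h1 : ((1 - ε : ℝ) : EReal) < L a) (h2 : U a < ((1 + ε : ℝ) : EReal)) :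
    Near ε a := by
  filter_upwards [eventually_lt_of_lt_liminf h1, eventually_lt_of_limsup_lt h2] with x h3 h4
  have h3' : 1 - ε < R (Real.log x ^ a) x := by exact_mod_cast h3
  have h4' : R (Real.log x ^ a) x < 1 + ε := by exact_mod_cast h4
  rw [abs_le]
  constructor <;> linarith

lemma of_near {a ε : ℝ} (h : Near ε a) :
    ((1 - ε : ℝ) : EReal) ≤ L a ∧ U a ≤ ((1 + ε : ℝ) : EReal) := by
  constructor
  · refine le_liminf_of_le (by isBoundedDefault) (h.mono fun x hx => ?_)
    rw [abs_le] at hx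
    have : 1 - ε ≤ R (Real.log x ^ a) x := by linarith
    exact_mod_cast this
  · refine limsup_le_of_le (by isBoundedDefault) (h.mono fun x hx => ?_)
    rw [abs_le] at hx
    have : R (Real.log x ^ a) x ≤ 1 + ε := by linarith
    exact_mod_cast this

lemma mono (a b : ℝ) (ha : 0 < a) (hab : a ≤ b) : U b ≤ U a ∧ L a ≤ L b := by
  rcases hab.eq_or_lt with rfl | hab
  · exact ⟨le_rfl, le_rfl⟩
  constructor
  · refine le_of_forall_gt_imp_ge_of_dense fun c hc => ?_
    refine limsup_le_of_le (by isBoundedDefault) ?_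
    filter_upwards [limsup_all ha hab c hc, pow_le_self b] with x h1 h2
    exact (h1 _ le_rfl h2).le
  · refine le_of_forall_lt_imp_le_of_dense fun c hc => ?_
    refine le_liminf_of_le (by isBoundedDefault) ?_
    filter_upwards [liminf_all ha hab c hc, pow_le_self b] with x h1 h2
    exact (h1 _ le_rfl h2).le

theorem result :
    -- monotonicity in the exponent
    (∀ a b : ℝ, 0 < a → a ≤ b → U b ≤ U a ∧ L a ≤ L b) ∧
    (∃ u l : EReal, Tendsto U atTop (𝓝 u) ∧ Tendsto L atTop (𝓝 l)) ∧
    -- all lengths from `(log x) ^ b` to `x` at once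
    (∀ a b : ℝ, 0 < a → a < b →
      (∀ c : EReal, U a < c → ∀ᶠ x : ℝ in atTop, ∀ h : ℝ, Real.log x ^ b ≤ h → h ≤ x →
        ((R h x : ℝ) : EReal) < c) ∧
      ∀ c : EReal, c < L a → ∀ᶠ x : ℝ in atTop, ∀ h : ℝ, Real.log x ^ b ≤ h → h ≤ x →
        c < ((R h x : ℝ) : EReal)) ∧
    -- the equivalent forms of the question
    List.TFAE [Tendsto L atTop (𝓝 1) ∧ Tendsto U atTop (𝓝 1),
      ∀ ε : ℝ, 0 < ε → ∃ a₀ : ℝ, ∀ a : ℝ, a₀ ≤ a → Near ε a,
      ∀ ε : ℝ, 0 < ε → ∃ a : ℝ, 0 < a ∧ Near ε a,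
      ∀ ε : ℝ, 0 < ε → ∃ N : ℝ, 1 < N ∧ ∀ x h : ℝ, N ≤ x → Real.log x ^ N ≤ h → h ≤ x →
        |R h x - 1| ≤ ε] := by
  refine ⟨mono, ?_, fun a b ha hab => ⟨limsup_all ha hab, liminf_all ha hab⟩, ?_⟩
  · have h1 : Antitone fun a : ℝ => U (max a 1) := fun a b hab =>
      (mono _ _ (lt_of_lt_of_le one_pos (le_max_right _ _)) (max_le_max hab le_rfl)).1
    have h2 : Monotone fun a : ℝ => L (max a 1) := fun a b hab =>
      (mono _ _ (lt_of_lt_of_le one_pos (le_max_right _ _)) (max_le_max hab le_rfl)).2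
    refine ⟨_, _, (tendsto_atTop_iInf h1).congr' ?_, (tendsto_atTop_iSup h2).congr' ?_⟩ <;>
    · filter_upwards [eventually_ge_atTop 1] with a ha
      rw [max_eq_left ha]
  · tfae_have 1 → 3 := by
      rintro ⟨h1, h2⟩ ε hε
      have h3 : ((1 - ε : ℝ) : EReal) < 1 := by
        have : (1 - ε : ℝ) < 1 := by linarith
        exact_mod_cast this
      have h4 : (1 : EReal) < ((1 + ε : ℝ) : EReal) := by
        have : (1 : ℝ) < 1 + ε := by linarith
        exact_mod_cast this
      obtain ⟨a, ⟨h5, h6⟩, h7⟩ := ((((tendsto_order.1 h1).1 _ h3).and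
        ((tendsto_order.1 h2).2 _ h4)).and (eventually_gt_atTop 0)).exists
      exact ⟨a, h7, near_of h5 h6⟩
    tfae_have 3 → 4 := by
      intro h ε hε
      obtain ⟨a, ha, h1⟩ := h (ε / 2) (by positivity)
      have h2 := upper_all ha (show a < a + 1 by linarith) (show 0 ≤ 1 + ε / 2 by positivity)
        (h1.mono fun x hx => by rw [abs_le] at hx; linarith) (ε / 2) (by positivity)
      have h3 := lower_all ha (show a < a + 1 by linarith) (α := 1 - ε / 2)
        (h1.mono fun x hx => by rw [abs_le] at hx; linarith) (ε / 2) (by positivity)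
      obtain ⟨x₀, hx₀⟩ := (h2.and h3).exists_forall_of_atTop
      refine ⟨max (max x₀ 3) (a + 1), ?_, fun x w hx hw1 hw2 => ?_⟩
      · have := (le_max_right x₀ 3).trans (le_max_left (max x₀ 3) (a + 1))
        linarith
      have hx1 : x₀ ≤ x := ((le_max_left _ _).trans (le_max_left _ _)).trans hx
      have hx3 : 3 ≤ x := ((le_max_right _ _).trans (le_max_left _ _)).trans hx
      have hlx : 1 ≤ Real.log x := log_one_le hx3
      have h4 : Real.log x ^ (a + 1) ≤ w :=
        (Real.rpow_le_rpow_of_exponent_le hlx (le_max_right _ _)).trans hw1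
      obtain ⟨h5, h6⟩ := hx₀ x hx1
      have h7 := h5 w h4 hw2
      have h8 := h6 w h4 hw2
      rw [abs_le]
      constructor <;> linarith
    tfae_have 4 → 2 := by
      intro h ε hε
      obtain ⟨N, hN1, hN⟩ := h ε hε
      refine ⟨N, fun a ha => ?_⟩
      filter_upwards [eventually_ge_atTop N, eventually_ge_atTop 3, pow_le_self a] with x hx hx3 hxa
      exact hN x _ hx (Real.rpow_le_rpow_of_exponent_le (log_one_le hx3) ha) hxa
    tfae_have 2 → 1 := by
      intro h
      have key : ∀ ε : ℝ, 0 < ε → ∀ᶠ a : ℝ in atTop,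
          ((1 - ε : ℝ) : EReal) ≤ L a ∧ U a ≤ ((1 + ε : ℝ) : EReal) := by
        intro ε hε
        obtain ⟨a₀, h1⟩ := h ε hε
        filter_upwards [eventually_ge_atTop a₀] with a ha
        exact of_near (h1 a ha)
      have hlow : ∀ c : EReal, c < 1 → ∀ᶠ a : ℝ in atTop, c < L a := by
        intro c hc
        obtain ⟨r, h1, h2⟩ := EReal.lt_iff_exists_real_btwn.1 hc
        have h2' : r < 1 := by exact_mod_cast h2
        filter_upwards [key (1 - r) (by linarith)] with a ha
        have e : (1 : ℝ) - (1 - r) = r := by ring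
        rw [e] at ha
        exact h1.trans_le ha.1
      have hup : ∀ c : EReal, 1 < c → ∀ᶠ a : ℝ in atTop, U a < c := by
        intro c hc
        obtain ⟨r, h1, h2⟩ := EReal.lt_iff_exists_real_btwn.1 hc
        have h1' : 1 < r := by exact_mod_cast h1
        filter_upwards [key (r - 1) (by linarith)] with a ha
        have e : (1 : ℝ) + (r - 1) = r := by ring
        rw [e] at ha
        exact ha.2.trans_lt h2
      refine ⟨tendsto_order.2 ⟨hlow, fun c hc => ?_⟩, tendsto_order.2 ⟨fun c hc => ?_, hup⟩⟩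
      · exact (hup c hc).mono fun a ha => (L_le_U a).trans_lt ha
      · exact (hlow c hc).mono fun a ha => ha.trans_le (L_le_U a)
    tfae_finish

end Pool.Agent.Results.MP_b09185_nt.OneExponentSuffices
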