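import Pool.Agent.W123.FS.Main3

/-!
# The density of the primes in `(x, x + (log x) ^ a]` is locally constant in the exponent `a`

`R a x` is `R_h(x) = (log x / h(x)) (π(x + h(x)) - π(x))` for `h(x) = (log x) ^ a`.

Let `0 < δ < 1`. There are `c, lam > 0` such that for every `η > 0` there is a number `K` with the
following property. Let `[s 0, t 0], [s 1, t 1], …` be any disjoint intervals of exponents in
`(1, ∞)`, in increasing order, and let `m` be arbitrarily large. For all large `N` all but at most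
`K` of the `m` intervals `[s, t] = [s i, t i]`, `i < m`, satisfy:

* for all but at most `η N` integers `n < N` the densities `R a n`, `a ∈ [s, t]`, differ by at most
  `η`, for all `a ∈ [s, t]` at once;
* for at least `c N` integers `n < N` moreover `1 - δ ≤ R a n ≤ lam` for all `a ∈ [s, t]`.

In particular (`m = K + 1`) for every `A` and every function `F` there is `A'` such that for all large
`N` both assertions hold for some interval `[s, F s]` of exponents with `A ≤ s ≤ A'`.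
-/

set_option autoImplicit false

namespace Pool.Agent.Results.MP_b09185_nt.StableExponents

open Finset Filter Topology

/-- `R_h(x) = (log x / h(x)) (π(x + h(x)) - π(x))` for `h(x) = (log x) ^ a` -/
noncomputable def R (a x : ℝ) : ℝ :=
  Real.log x / Real.log x ^ a *
    ((Nat.primeCounting ⌊x + Real.log x ^ a⌋₊ : ℝ) - Nat.primeCounting ⌊x⌋₊)

/-- the numbers `R a x`, `s ≤ a ≤ t`, differ by at most `η` -/
def Stable (η s t x : ℝ) : Prop :=
  ∀ a b : ℝ, s ≤ a → a ≤ t → s ≤ b → b ≤ t → |R a x - R b x| ≤ η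

lemma pi_eq (n : ℕ) : Nat.primeCounting n = ((range (n + 1)).filter Nat.Prime).card := by
  rw [Nat.primeCounting, Nat.primeCounting', Nat.count_eq_card_filter_range]

lemma card_Ioc {a b : ℕ} (h : a ≤ b) : (((Ioc a b).filter Nat.Prime).card : ℝ) =
    (Nat.primeCounting b : ℝ) - Nat.primeCounting a := by
  have h1 : (range (b + 1)).filter Nat.Prime =
      (range (a + 1)).filter Nat.Prime ∪ (Ioc a b).filter Nat.Prime := by
    rw [← filter_union]
    congr 1
    ext x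
    simp only [mem_range, mem_union, mem_Ioc]
    omega
  have h2 : Disjoint ((range (a + 1)).filter Nat.Prime) ((Ioc a b).filter Nat.Prime) := by
    rw [disjoint_left]
    intro x hx hy
    rw [mem_filter, mem_range] at hx
    rw [mem_filter, mem_Ioc] at hy
    omega
  rw [pi_eq, pi_eq, h1, card_union_of_disjoint h2]
  push_cast
  ring

open Pool.Agent.H357R2.SI in
lemma R_eq (a : ℝ) (n : ℕ) :
    R a n = Real.log n * ((piS n (Real.log n ^ a) : ℝ) / Real.log n ^ a) := by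
  have hl : 0 ≤ Real.log (n : ℝ) := Real.log_natCast_nonneg n
  have hH : 0 ≤ Real.log (n : ℝ) ^ a := Real.rpow_nonneg hl a
  unfold R piS
  rw [card_Ioc (Nat.floor_mono (by linarith))]
  ring

open Classical in
/-- the property of the interval `[s, t]` of exponents at `N` -/
def Good (δ c lam η : ℝ) (N : ℕ) (s t : ℝ) : Prop :=
  (((range N).filter (fun n : ℕ => ¬ Stable η s t n)).card : ℝ) ≤ η * N ∧
  c * N ≤ (((range N).filter (fun n : ℕ => Stable η s t n ∧
    ∀ a : ℝ, s ≤ a → a ≤ t → 1 - δ ≤ R a n ∧ R a n ≤ lam)).card : ℝ)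

open Classical Pool.Agent.H357R2.SI Pool.Agent.W123.FS in
theorem main (δ : ℝ) (hδ : 0 < δ) (hδ1 : δ < 1) : ∃ c lam : ℝ, 0 < c ∧ 0 < lam ∧
    ∀ η : ℝ, 0 < η → ∃ K : ℕ, ∀ s t : ℕ → ℝ, 1 < s 0 → (∀ i, s i ≤ t i) → (∀ i, t i < s (i + 1)) →
      ∀ m : ℕ, ∀ᶠ N : ℕ in atTop, ∃ B : Finset ℕ, B.card ≤ K ∧ ∀ i < m, i ∉ B →
        Good δ c lam η N (s i) (t i) := by
  obtain ⟨K₀, lam, c, hK₀, hlam, hc, hall⟩ :=
    Pool.Agent.Results.MP_31d0eb_nt.AllScales.result δ hδ hδ1
  refine ⟨c / 2, lam, by positivity, hlam, fun η hη => ?_⟩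
  obtain ⟨δ₁, hδ₁⟩ : ∃ δ₁ : ℝ, δ₁ = min (min (η / 4) (c / 16)) (1 / 2) := ⟨_, rfl⟩
  have hδ₁0 : 0 < δ₁ := by rw [hδ₁]; exact lt_min (lt_min (by positivity) (by positivity)) (by norm_num)
  have hδ₁η : δ₁ ≤ η / 4 := by rw [hδ₁]; exact (min_le_left _ _).trans (min_le_left _ _)
  have hδ₁c : δ₁ ≤ c / 16 := by rw [hδ₁]; exact (min_le_left _ _).trans (min_le_right _ _)
  have hδ₁1 : δ₁ ≤ 1 / 2 := by rw [hδ₁]; exact min_le_right _ _
  obtain ⟨K, hK⟩ := chain δ₁ hδ₁0
  refine ⟨K, fun s t hs0 hst hts m => ?_⟩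
  have hsmono : Monotone s := monotone_nat_of_le_succ fun i => (hst i).trans (hts i).le
  have hs1 : ∀ i, 1 < s i := fun i => hs0.trans_le (hsmono (Nat.zero_le i))
  have hNr : Tendsto (fun N : ℕ => (N : ℝ)) atTop atTop := tendsto_natCast_atTop_atTop
  have hlogN : Tendsto (fun N : ℕ => Real.log (N : ℝ)) atTop atTop :=
    Real.tendsto_log_atTop.comp hNr
  have hpow : ∀ u : ℝ, 0 < u → Tendsto (fun N : ℕ => Real.log (N : ℝ) ^ u) atTop atTop :=
    fun u hu => (tendsto_rpow_atTop hu).comp hlogN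
  have hfin : ∀ p : ℕ → ℕ → Prop, (∀ i, ∀ᶠ N : ℕ in atTop, p i N) →
      ∀ᶠ N : ℕ in atTop, ∀ i ∈ range m, p i N := fun p hp =>
    (eventually_all_finset (range m)).2 fun i _ => hp i
  -- eventual facts
  have e1 := hfin (fun i N => 2 ≤ Real.log (N : ℝ) ^ (s (i + 1) - t i)) fun i =>
    (hpow _ (by linarith [hts i])).eventually_ge_atTop 2
  have e2 := hfin (fun i N => Real.log (N : ℝ) ^ s i / 2 ≤
      (Real.log (N : ℝ) - Real.log (1 / δ₁)) ^ s i) fun i => by
    have hsi : 0 < s i := by linarith [hs1 i]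
    obtain ⟨q, hq⟩ : ∃ q : ℝ, q = (1 / 2 : ℝ) ^ (1 / s i) := ⟨_, rfl⟩
    have hq0 : 0 < q := by rw [hq]; positivity
    have hq1 : q < 1 := by
      rw [hq]
      exact Real.rpow_lt_one (by norm_num) (by norm_num) (by positivity)
    have hqs : q ^ s i = 1 / 2 := by
      rw [hq, ← Real.rpow_mul (by norm_num), one_div_mul_cancel hsi.ne', Real.rpow_one]
    filter_upwards [hlogN.eventually_ge_atTop (Real.log (1 / δ₁) / (1 - q)),
      hlogN.eventually_ge_atTop 0] with N h1 h2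
    rw [div_le_iff₀ (by linarith)] at h1
    calc Real.log (N : ℝ) ^ s i / 2 = (q * Real.log N) ^ s i := by
          rw [Real.mul_rpow hq0.le h2, hqs]; ring
      _ ≤ _ := Real.rpow_le_rpow (by positivity) (by linarith) hsi.le
  have e3 : ∀ᶠ N : ℕ in atTop, (K : ℝ) * Real.log N ≤ Real.log N ^ s 0 / 2 := by
    filter_upwards [(hpow (s 0 - 1) (by linarith)).eventually_ge_atTop (2 * K),
      hlogN.eventually_gt_atTop 0] with N h1 h2
    have h3 : Real.log (N : ℝ) ^ s 0 = Real.log (N : ℝ) ^ (s 0 - 1) * Real.log N := by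
      rw [← Real.rpow_add_one h2.ne']
      congr 1
      ring
    rw [h3]
    nlinarith
  have hsub : ∀ u : ℝ, ∀ᶠ N : ℕ in atTop, Real.log (N : ℝ) ^ u ≤ N := by
    intro u
    have h := ((isLittleO_log_rpow_rpow_atTop u one_pos).comp_tendsto hNr).bound one_pos
    filter_upwards [h, eventually_ge_atTop 1] with N hN hN1
    have hN1' : (1 : ℝ) ≤ N := by exact_mod_cast hN1
    have hl := Real.log_nonneg hN1'
    simp only [Function.comp_def, one_mul, Real.rpow_one] at hN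
    rwa [Real.norm_of_nonneg (by positivity), Real.norm_of_nonneg (by positivity)] at hN
  have e4 := hsub (s m)
  -- facts about the individual n
  have f1 := hfin (fun i n => K₀ * Real.log n ≤ Real.log (n : ℝ) ^ s i ∧
      Real.log (n : ℝ) ^ t i ≤ n) fun i => by
    filter_upwards [(hpow (s i - 1) (by linarith [hs1 i])).eventually_ge_atTop K₀,
      hlogN.eventually_gt_atTop 0, hsub (t i)] with N h1 h2 h4
    have h3 : Real.log (N : ℝ) ^ s i = Real.log (N : ℝ) ^ (s i - 1) * Real.log N := by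
      rw [← Real.rpow_add_one h2.ne']
      congr 1
      ring
    refine ⟨?_, h4⟩
    rw [h3]
    exact mul_le_mul_of_nonneg_right h1 h2.le
  obtain ⟨n₀, hn₀⟩ := (f1.and (hlogN.eventually_ge_atTop 1)).exists_forall_of_atTop
  filter_upwards [hK, hall, e1, e2, e3, e4, hlogN.eventually_ge_atTop (1 + Real.log (1 / δ₁)),
    hlogN.eventually_ge_atTop 1,
    hNr.eventually_ge_atTop (n₀ / δ₁), hNr.eventually_ge_atTop (1 / δ₁), eventually_ge_atTop 1]
    with N hKN hallN g1 g2 g3 g4 g5 g6 g7 g8 g9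
  have hN0 : (0 : ℝ) < N := by exact_mod_cast g9
  obtain ⟨T, hT⟩ : ∃ T : ℕ → ℝ, T = fun i => Real.log (N : ℝ) ^ s i / 2 := ⟨_, rfl⟩
  have hTi : ∀ i, T i = Real.log (N : ℝ) ^ s i / 2 := fun i => by rw [hT]
  have hl0 : 0 < Real.log (N : ℝ) := by linarith
  have hstep : ∀ i < m, Real.log (N : ℝ) ^ t i ≤ T (i + 1) := by
    intro i hi
    have h1 := g1 i (mem_range.2 hi)
    have h2 : Real.log (N : ℝ) ^ s (i + 1) =
        Real.log (N : ℝ) ^ (s (i + 1) - t i) * Real.log (N : ℝ) ^ t i := by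
      rw [← Real.rpow_add hl0]
      congr 1
      ring
    have h3 : 0 < Real.log (N : ℝ) ^ t i := by positivity
    rw [hTi, h2]
    nlinarith
  obtain ⟨B, hB, hBi⟩ := hKN m T (by rw [hTi]; exact g3) (by
      intro i hi
      have h1 := hstep i hi
      have h2 : Real.log (N : ℝ) ^ s i ≤ Real.log (N : ℝ) ^ t i :=
        Real.rpow_le_rpow_of_exponent_le g6 (hst i)
      rw [hTi i]
      linarith) (by
      rw [hTi]
      have h1 : 0 < Real.log (N : ℝ) ^ s m := by positivity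
      linarith)
  refine ⟨B, hB, fun i hi hiB => ?_⟩
  have hbad := hBi i hi hiB
  have him := mem_range.2 hi
  -- a good n
  have key : ∀ n : ℕ, n < N → δ₁ * N ≤ n → n ∉ badset δ₁ N (T i) (T (i + 1)) →
      Stable η (s i) (t i) n := by
    intro n hnN hnge hnb a b ha1 ha2 hb1 hb2
    have hnNr : (n : ℝ) ≤ N := by exact_mod_cast hnN.le
    have hn1 : (1 : ℝ) ≤ n := by
      rw [div_le_iff₀ hδ₁0] at g8
      linarith
    have hn1' : 1 ≤ n := by exact_mod_cast hn1
    have hlogle : Real.log n ≤ Real.log N := Real.log_le_log (by linarith) hnNr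
    have hlogge : Real.log N - Real.log (1 / δ₁) ≤ Real.log n := by
      have h1 : Real.log (δ₁ * N) ≤ Real.log n := Real.log_le_log (by positivity) hnge
      rw [Real.log_mul hδ₁0.ne' hN0.ne'] at h1
      rw [one_div, Real.log_inv]
      linarith
    have hlog1 : 1 ≤ Real.log (n : ℝ) := by linarith
    have hlog0 : 0 < Real.log (n : ℝ) := by linarith
    have hwin : ∀ x : ℝ, s i ≤ x → x ≤ t i → T i ≤ Real.log (n : ℝ) ^ x ∧
        Real.log (n : ℝ) ^ x ≤ T (i + 1) := by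
      intro x hx1 hx2
      constructor
      · rw [hTi]
        calc _ ≤ (Real.log (N : ℝ) - Real.log (1 / δ₁)) ^ s i := g2 i him
          _ ≤ Real.log (n : ℝ) ^ s i :=
              Real.rpow_le_rpow (by linarith) hlogge (by linarith [hs1 i])
          _ ≤ Real.log (n : ℝ) ^ x := Real.rpow_le_rpow_of_exponent_le hlog1 hx1
      · calc _ ≤ Real.log (n : ℝ) ^ t i := Real.rpow_le_rpow_of_exponent_le hlog1 hx2
          _ ≤ Real.log (N : ℝ) ^ t i :=
              Real.rpow_le_rpow hlog0.le hlogle (by linarith [hs1 i, hst i])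
          _ ≤ _ := hstep i hi
    have hall2 : ∀ H H' : ℝ, T i ≤ H → H ≤ T (i + 1) → T i ≤ H' → H' ≤ T (i + 1) →
        |(piS n H : ℝ) / H - (piS n H' : ℝ) / H'| ≤ δ₁ / Real.log N := by
      by_contra hcon
      apply hnb
      unfold badset
      rw [mem_filter, mem_range]
      exact ⟨hnN, hcon⟩
    obtain ⟨a1, a2⟩ := hwin a ha1 ha2
    obtain ⟨b1, b2⟩ := hwin b hb1 hb2
    have h1 := hall2 _ _ a1 a2 b1 b2
    rw [R_eq, R_eq, ← mul_sub, abs_mul, abs_of_pos hlog0]
    rw [le_div_iff₀ hl0] at h1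
    calc _ ≤ Real.log (N : ℝ) * |(piS n (Real.log n ^ a) : ℝ) / Real.log n ^ a -
          (piS n (Real.log n ^ b) : ℝ) / Real.log n ^ b| :=
          mul_le_mul_of_nonneg_right hlogle (abs_nonneg _)
      _ ≤ δ₁ := by rw [mul_comm]; exact h1
      _ ≤ η := by linarith
  have hceil : (⌈δ₁ * (N : ℝ)⌉₊ : ℝ) < δ₁ * N + 1 := Nat.ceil_lt_add_one (by positivity)
  have h1N : 1 ≤ δ₁ * N := by
    rw [div_le_iff₀ hδ₁0] at g8
    linarith
  constructor
  · have hsub1 : (range N).filter (fun n : ℕ => ¬ Stable η (s i) (t i) n) ⊆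
        badset δ₁ N (T i) (T (i + 1)) ∪ range ⌈δ₁ * (N : ℝ)⌉₊ := by
      intro n hn
      rw [mem_filter, mem_range] at hn
      rw [mem_union, mem_range]
      by_contra hnot
      rw [not_or] at hnot
      exact hn.2 (key n hn.1 (Nat.ceil_le.1 (Nat.le_of_not_lt hnot.2)) hnot.1)
    have h1 := (card_le_card hsub1).trans (card_union_le _ _)
    rw [card_range] at h1
    have h2 : (((range N).filter (fun n : ℕ => ¬ Stable η (s i) (t i) n)).card : ℝ) ≤
        (badset δ₁ N (T i) (T (i + 1))).card + (⌈δ₁ * (N : ℝ)⌉₊ : ℝ) := by exact_mod_cast h1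
    have h3 : δ₁ * N ≤ η / 4 * N := mul_le_mul_of_nonneg_right hδ₁η hN0.le
    have h4 : 0 < η * N := by positivity
    linarith
  · obtain ⟨S1, hS1⟩ : ∃ S1 : Finset ℕ, S1 = (range N).filter (fun n : ℕ =>
        ∀ H : ℝ, K₀ * Real.log n ≤ H → H ≤ n →
          (1 - δ) * H / Real.log n ≤ piS n H ∧ (piS n H : ℝ) ≤ lam * H / Real.log n) := ⟨_, rfl⟩
    rw [← hS1] at hallN
    have hsub2 : S1 ⊆ (range N).filter (fun n : ℕ => Stable η (s i) (t i) n ∧
          ∀ a : ℝ, s i ≤ a → a ≤ t i → 1 - δ ≤ R a n ∧ R a n ≤ lam) ∪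
        (badset δ₁ N (T i) (T (i + 1)) ∪ range ⌈δ₁ * (N : ℝ)⌉₊) := by
      intro n hn
      rw [hS1, mem_filter, mem_range] at hn
      rw [mem_union, mem_union, mem_range]
      by_contra hnot
      rw [not_or, not_or] at hnot
      obtain ⟨h1, h2, h3⟩ := hnot
      apply h1
      rw [mem_filter, mem_range]
      have hnge : δ₁ * N ≤ n := Nat.ceil_le.1 (Nat.le_of_not_lt h3)
      refine ⟨hn.1, key n hn.1 hnge h2, fun a ha1 ha2 => ?_⟩
      have hnn : n₀ ≤ n := by
        rw [div_le_iff₀ hδ₁0] at g7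
        have : (n₀ : ℝ) ≤ n := by linarith
        exact_mod_cast this
      have hn1 : (1 : ℝ) ≤ n := by linarith
      obtain ⟨k1, k2⟩ := hn₀ n hnn
      obtain ⟨k3, k4⟩ := k1 i him
      have hlog0 : 0 < Real.log (n : ℝ) := by linarith
      have k5 : Real.log (n : ℝ) ^ s i ≤ Real.log (n : ℝ) ^ a :=
        Real.rpow_le_rpow_of_exponent_le k2 ha1
      have k6 : Real.log (n : ℝ) ^ a ≤ Real.log (n : ℝ) ^ t i :=
        Real.rpow_le_rpow_of_exponent_le k2 ha2
      obtain ⟨k7, k8⟩ := hn.2 (Real.log (n : ℝ) ^ a) (k3.trans k5) (k6.trans k4)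
      have hH0 : 0 < Real.log (n : ℝ) ^ a := by positivity
      rw [R_eq]
      rw [div_le_iff₀ hlog0] at k7
      rw [le_div_iff₀ hlog0] at k8
      constructor
      · rw [← mul_div_assoc, le_div_iff₀ hH0]
        linarith
      · rw [← mul_div_assoc, div_le_iff₀ hH0]
        linarith
    have h1 := (card_le_card hsub2).trans ((card_union_le _ _).trans
      (Nat.add_le_add_left (card_union_le _ _) _))
    rw [card_range] at h1
    have h2 : (S1.card : ℝ) ≤ ((range N).filter (fun n : ℕ => Stable η (s i) (t i) n ∧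
          ∀ a : ℝ, s i ≤ a → a ≤ t i → 1 - δ ≤ R a n ∧ R a n ≤ lam)).card +
        ((badset δ₁ N (T i) (T (i + 1))).card + (⌈δ₁ * (N : ℝ)⌉₊ : ℝ)) := by exact_mod_cast h1
    have h3 : δ₁ * N ≤ c / 16 * N := mul_le_mul_of_nonneg_right hδ₁c hN0.le
    linarith

theorem result (δ : ℝ) (hδ : 0 < δ) (hδ1 : δ < 1) : ∃ c lam : ℝ, 0 < c ∧ 0 < lam ∧
    (∀ η : ℝ, 0 < η → ∃ K : ℕ, ∀ s t : ℕ → ℝ, 1 < s 0 → (∀ i, s i ≤ t i) →
      (∀ i, t i < s (i + 1)) → ∀ m : ℕ, ∀ᶠ N : ℕ in atTop, ∃ B : Finset ℕ, B.card ≤ K ∧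
        ∀ i < m, i ∉ B → Good δ c lam η N (s i) (t i)) ∧
    ∀ η : ℝ, 0 < η → ∀ (A : ℝ) (F : ℝ → ℝ), (∀ x, x ≤ F x) → ∃ A' : ℝ, ∀ᶠ N : ℕ in atTop,
      ∃ s : ℝ, A ≤ s ∧ s ≤ A' ∧ Good δ c lam η N s (F s) := by
  obtain ⟨c, lam, hc, hlam, h⟩ := main δ hδ hδ1
  refine ⟨c, lam, hc, hlam, h, fun η hη A F hF => ?_⟩
  obtain ⟨K, hK⟩ := h η hη
  obtain ⟨s, hs⟩ : ∃ s : ℕ → ℝ, s = fun i => Nat.rec (max A 2) (fun _ x => F x + 1) i := ⟨_, rfl⟩
  have hs0 : s 0 = max A 2 := congrFun hs 0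
  have hss : ∀ i, s (i + 1) = F (s i) + 1 := fun i => by subst hs; rfl
  have hmono : Monotone s := monotone_nat_of_le_succ fun i => by
    rw [hss]
    linarith [hF (s i)]
  refine ⟨s K, ?_⟩
  filter_upwards [hK s (fun i => F (s i)) (by rw [hs0]; linarith [le_max_right A 2])
    (fun i => hF _) (fun i => by rw [hss]; linarith) (K + 1)] with N hN
  obtain ⟨B, hB, hBi⟩ := hN
  obtain ⟨i, hi1, hi2⟩ : ∃ i ∈ range (K + 1), i ∉ B :=
    exists_mem_notMem_of_card_lt_card (by rw [card_range]; omega)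
  rw [mem_range] at hi1
  refine ⟨s i, ?_, hmono (by omega), hBi i hi1 hi2⟩
  calc A ≤ max A 2 := le_max_left _ _
    _ = s 0 := hs0.symm
    _ ≤ s i := hmono (Nat.zero_le i)

end Pool.Agent.Results.MP_b09185_nt.StableExponents
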